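import Mathlib
import Pool.Agent.R849.AF.Near

set_option autoImplicit false

/-!
# The Lang-Vojta conjecture for affine varieties and sums of elements of groups of finite rank

All varieties of Q1 (every subvariety is of log general type), and more generally all varieties of
log general type in the nondensity form of the conjecture, are not dominated by punctured lines.
For an affine variety `U` over a number field `k` and integral points which are sums of a bounded
number of units this is the only condition:

1. For all `d` and `r` there is `ε > 0` such that for every irreducible affine variety `U` over a field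
   `k` of characteristic zero, given by polynomials of degree at most `d` in any number of variables,
   which is not dominated by punctured lines, there is ONE proper closed subset `Z = U ∩ {G = 0}` with
   the following properties.  Let `Γ` be a finitely generated group of algebraic numbers (of any
   rank), `u_j` algebraic numbers with a power in `Γ` (they generate a field of infinite degree).
   * (heights) If `x = u_1 V_1 + … + u_r V_r` is in `U ∖ Z`, for any vectors `V_j` of algebraic
     numbers, then `h(1 : x) ≤ C (1 + h(1 : V))`, where `C` depends on `U`, `r` and `Γ` only.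
   * (rational points) For every number field `L` and every `B` the points of `U ∖ Z` over `L` of
     this form with `h(1 : V) ≤ B` are finite in number.
   * (all points over `Qbar`) For all `V_j` the points of `U ∖ Z` over `Qbar` of the form
     `∑ u_j s_j V_j` with `h(1 : s) < ε` are finite in number, at most `A (1 + h(1 : V)) ^ e`.
2. Let `k` be a number field and `U` irreducible.  `U` is not dominated by punctured lines if and only
   if for every `r` there is a proper closed subset `Z` of `U` such that for all number fields
   `L ⊇ k` and all finite sets `S` of primes of `L` the points of `U ∖ Z` whose coordinates are sums of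
   at most `r` `S`-units of `L` are finite in number.
3. Let `k` be a number field and `U` any closed subset of affine space.  `U` contains no nonconstant
   image of the punctured line over a number field if and only if the properties in 1 hold with
   `Z` empty, if and only if for all `L`, `S`, `r` only finitely many points of `U` have coordinates
   which are sums of at most `r` `S`-units.

This is the unused project `Y215/AF` (files `Log*`) of the starting repository, which no starting
hand-in states; it had the hand-in `SparseIntegralPoints` of this problem (one base, coordinates with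
few nonzero digits) as its only relative.
-/

namespace Pool.Agent.Results.MP_26d9ad_nt.FiniteRankSums

open MvPolynomial Pool.Agent.Y215.AF

theorem result :
    (∀ d r : ℕ, 1 ≤ d → ∃ ε : ℝ, 0 < ε ∧ ∀ (k : Type) [Field k] [CharZero k] (n N : ℕ)
      (F : Fin N → MvPolynomial (Fin n) k), (∀ i, (F i).totalDegree ≤ d) →
      (Ideal.span (Set.range F)).IsPrime → ¬ GmUniruled (Ideal.span (Set.range F)) →
      ∃ G : MvPolynomial (Fin n) k, G ∉ Ideal.span (Set.range F) ∧
        HeightsOff F G r ∧ RationalOff F G r ∧ NearOff ε F G r) ∧
    (∀ (k : Type) [Field k] [NumberField k] (n N : ℕ) (F : Fin N → MvPolynomial (Fin n) k),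
      (Ideal.span (Set.range F)).IsPrime →
      (¬ GmUniruled (Ideal.span (Set.range F)) ↔
        ∀ r : ℕ, ∃ G : MvPolynomial (Fin n) k, G ∉ Ideal.span (Set.range F) ∧
          UnitSumOff F G r)) ∧
    (∀ (k : Type) [Field k] [NumberField k] (n N : ℕ) (F : Fin N → MvPolynomial (Fin n) k),
      List.TFAE [NoGmCurve F, ∀ r, HeightsOff F 1 r, ∀ r, RationalOff F 1 r,
        ∀ r, ∃ ε : ℝ, 0 < ε ∧ NearOff ε F 1 r, ∀ r, UnitSumOff F 1 r]) := by
  have h1 : ∀ d r : ℕ, 1 ≤ d → ∀ (k : Type) [Field k] [CharZero k] (n N : ℕ)
      (F : Fin N → MvPolynomial (Fin n) k), (∀ i, (F i).totalDegree ≤ d) →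
      (Ideal.span (Set.range F)).IsPrime → ¬ GmUniruled (Ideal.span (Set.range F)) →
      ∃ G : MvPolynomial (Fin n) k, G ∉ Ideal.span (Set.range F) ∧
        HeightsOff F G r ∧ RationalOff F G r ∧ NearOff (eps d r) F G r := by
    intro d r hd1 k _ _ n N F hd hp hu
    obtain ⟨G, hG, hcur⟩ := exists_hyperA (Set.range F) hp hu d hd1 (by
      rintro _ ⟨i, rfl⟩
      exact hd i) r
    have hC : CurCond F d G r := by
      intro L _ _ c l hz hc
      refine hcur L c l ?_ hc
      rintro _ ⟨i, rfl⟩
      exact hz i
    refine ⟨G, hG, ?_, ?_, ?_⟩
    · exact heightsOff F d hd G r hC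
    · exact rationalOff F G r (heightsOff F d hd G r hC)
    · exact nearOff_main F d hd1 hd G r hC
  refine ⟨fun d r hd1 => ⟨eps d r, eps_pos d r hd1, fun k _ _ n N F => h1 d r hd1 k n N F⟩, ?_,
    fun k _ _ n N F => Pool.Agent.R849.AF.tfae_one F⟩
  intro k _ _ n N F hp
  constructor
  · intro hu r
    obtain ⟨d, hd1, hd⟩ := Pool.Agent.R849.AF.exists_deg F
    obtain ⟨G, hG, h3⟩ := h1 d (n * r) hd1 k n N F hd hp hu
    exact ⟨G, hG, unitSumOff F G r h3.2.1⟩
  · intro h hu
    obtain ⟨r, hr⟩ := conv_gm F hu
    obtain ⟨G, hG, hG2⟩ := h r
    exact hr G hG hG2

end Pool.Agent.Results.MP_26d9ad_nt.FiniteRankSums
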