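import Mathlib
import Pool.Agent.R870.RP.Pairs

set_option autoImplicit false

/-!
# Random pairs of log general type: integral points of polynomial height

Let `n`, `s`, degrees `d_1, …, d_s` with `d_1 + ⋯ + d_s ≥ n + 2`, a set `C` of indices and a finite
set `S` of primes be given. For forms `F_1, …, F_s` of degrees `d_i` in `n + 1` variables let `V` be
the subscheme `F_i = 0` (`i ∈ C`) of projective `n`-space and `D` the union of the hypersurfaces
`F_i = 0` (`i ∉ C`). For general forms `V` is smooth, `D` has normal crossings on `V` and `V ∖ D` is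
of log general type. (`C` empty: complements of divisors of degree `≥ n + 2` in `ℙ^n`.)

Among the `(2 H + 1) ^ (∑ binom (n + d_i) (d_i))` systems of forms with integral coefficients of
absolute value at most `H` the proportion of those for which `V ∖ D` has an `S`-integral point of
height at most `B` is, with `Q = #S (s - #C)`, for all `H, B ≥ 1`,

  at least `c (1 + log H) ^ Q / H ^ s` and at most
  `K (1 + log H) ^ Q / H ^ s * (1 + B ^ (n + 1) (1 + log B) ^ Q / H ^ (d_1 + ⋯ + d_s))`.

So it has the exact order of magnitude `(1 + log H) ^ Q / H ^ s` for the points of height up to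
`H ^ (∑ d_i / (n + 1) - ε)`, and the exponent is greater than `1` for small `ε`.
-/

namespace Pool.Agent.Results.MP_26d9ad_nt.RandomPairs

open Pool.Agent.R870.RC

theorem result (n s : ℕ) (d : Fin s → ℕ) (C : Finset (Fin s)) (S : Finset ℕ)
    (hS : ∀ p ∈ S, p.Prime) (hd : n + 2 ≤ ∑ i, d i) :
    ∃ c K : ℝ, 0 < c ∧ ∀ H B : ℕ, 1 ≤ H → 1 ≤ B →
      (Systems n d H).Finite ∧
      (Systems n d H).ncard = (2 * H + 1) ^ (∑ i, (n + d i).choose (d i)) ∧
      c * ((1 + Real.log H) ^ (S.card * (s - C.card)) / (H : ℝ) ^ s) *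
        ((Systems n d H).ncard : ℝ) ≤ ((IntPoint n d C S H B).ncard : ℝ) ∧
      ((IntPoint n d C S H B).ncard : ℝ) ≤
        K * ((1 + Real.log H) ^ (S.card * (s - C.card)) / (H : ℝ) ^ s) *
          (1 + (B : ℝ) ^ (n + 1) * (1 + Real.log B) ^ (S.card * (s - C.card)) /
            (H : ℝ) ^ (∑ i, d i)) * ((Systems n d H).ncard : ℝ) :=
  pairs n s d C S hS hd

end Pool.Agent.Results.MP_26d9ad_nt.RandomPairs
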