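import Pool.Agent.R404.TC.Cons3

set_option autoImplicit false

/-!
# Integral points on surfaces minus three curves any two of which meet in at least two points

`X = {G = 0}` is a projective scheme in `ℙ^(n-1)` over a number field `K`, for example the plane, and
`D = ∑ D_i`, `D_i = X ∩ {F i = 0}`, has `q ≥ 3` components.
-/

namespace Pool.Agent.Results.MP_26d9ad_nt.ThreeComponents

open NumberField IsDedekindDomain
open scoped LinearAlgebra.Projectivization

/-- The point with homogeneous coordinates `x` lies on the projective scheme `X = {G = 0}`. -/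
def On {K L : Type} [Field K] [Field L] [Algebra K L] {m n : ℕ}
    (G : Fin m → MvPolynomial (Fin n) K) (x : Fin n → L) : Prop :=
  ∀ k, MvPolynomial.aeval x (G k) = 0

/-- The forms `A`, `B` are a regular sequence in the local ring of `X = {G = 0}` at the point `y`:
`A` is not a zero divisor in this ring and `B` is not a zero divisor in its quotient by `A`. -/
def RegularAt {L : Type} [Field L] {m n : ℕ} (G : Fin m → MvPolynomial (Fin n) L)
    (A B : MvPolynomial (Fin n) L) (y : Fin n → L) : Prop :=
  (∀ u : MvPolynomial (Fin n) L, A * u ∈ Ideal.span (Set.range G) →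
    ∃ (h : MvPolynomial (Fin n) L) (e : ℕ), h.IsHomogeneous e ∧ MvPolynomial.eval y h ≠ 0 ∧
      h * u ∈ Ideal.span (Set.range G)) ∧
  ∀ u : MvPolynomial (Fin n) L, B * u ∈ Ideal.span (Set.range G ∪ {A}) →
    ∃ (h : MvPolynomial (Fin n) L) (e : ℕ), h.IsHomogeneous e ∧ MvPolynomial.eval y h ≠ 0 ∧
      h * u ∈ Ideal.span (Set.range G ∪ {A})

/-- The places of a number field: the archimedean places and the primes. -/
abbrev Place (K : Type) [Field K] [NumberField K] : Type :=
  InfinitePlace K ⊕ HeightOneSpectrum (𝓞 K)

/-- The local height `d_v λ_{D,v}` of the hypersurface `F = 0` of degree `d` at the point with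
homogeneous coordinates `x`, where `d_v = [K_v : ℚ_v] / [K : ℚ]`. (The absolute value of a prime `p`
is the normalised one, with the value `(N p) ^ (-ord_p x)` at `x ≠ 0`.) -/
noncomputable def localHeight {K : Type} [Field K] [NumberField K] {n : ℕ} (v : Place K) (d : ℕ)
    (F : MvPolynomial (Fin n) K) (x : Fin n → K) : ℝ :=
  match v with
  | Sum.inl w => w.mult * Real.log ((⨆ j, w (x j)) ^ d / w (MvPolynomial.eval x F)) /
      Module.finrank ℚ K
  | Sum.inr p => Real.log ((⨆ j, FinitePlace.mk p (x j)) ^ d /
      FinitePlace.mk p (MvPolynomial.eval x F)) / Module.finrank ℚ K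

/-- The absolute logarithmic height. -/
noncomputable def height {K : Type} [Field K] [NumberField K] {n : ℕ} (x : Fin n → K) : ℝ :=
  Height.logHeight x / Module.finrank ℚ K

/-- Let `X = {G = 0}` be a projective scheme over a number field `K`, let `F 0, …, F (q-1)`,
`q ≥ 3`, be forms of positive degrees `d i` such that no three of the `D_i = X ∩ {F i = 0}` have a
common point and any two of them have at least two common geometric points, at which their equations
are a regular sequence in the local ring of `X` (this is automatic if `X` is the plane: `G` is empty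
and `n = 3`). There is `η > 0`, depending only on `X` and the `D_i`, such that for every set `S` of
at most two places of `K` (archimedean or not) and every `κ` there is a finite set `Z` of forms of
the same degree which are not in the ideal of `X`, such that there are only finitely many
`K`-rational points `P` of `X` off `D`, and off the zeros of the forms in `Z`, whose proximity
functions `m_S(D_i, P) = ∑_{v ∈ S} d_v λ_{D_i,v}(P)` satisfy `m_S(D_i, P) ≥ (d i - η) h(P) - κ` for
all `i`. If `S` contains the archimedean places this says that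
`N_S(D_i, P) = d i h(P) - m_S(D_i, P) ≤ η h(P) + κ`; the (quasi-)`S`-integral points with respect to
`D` satisfy `N_S(D_i, P) ≤ κ`. In general it says that `P` is nearly integral, and near to `D` at
most at the two places in `S`. -/
theorem result (K : Type) [Field K] [NumberField K] (m n q : ℕ) (hq : 3 ≤ q)
    (G : Fin m → MvPolynomial (Fin n) K) (g : Fin m → ℕ) (hG : ∀ k, (G k).IsHomogeneous (g k))
    (F : Fin q → MvPolynomial (Fin n) K) (d : Fin q → ℕ) (hF : ∀ i, (F i).IsHomogeneous (d i))
    (hd : ∀ i, 0 < d i)
    (h3 : ∀ i j l, i ≠ j → i ≠ l → j ≠ l → ∀ (L : Type) [Field L] [Algebra K L] (x : Fin n → L),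
      On G x → MvPolynomial.aeval x (F i) = 0 → MvPolynomial.aeval x (F j) = 0 →
        MvPolynomial.aeval x (F l) = 0 → x = 0)
    (h2 : ∀ i j, i ≠ j → ∃ x y : Fin n → AlgebraicClosure K,
      LinearIndependent (AlgebraicClosure K) ![x, y] ∧ On G x ∧ On G y ∧
      MvPolynomial.aeval x (F i) = 0 ∧ MvPolynomial.aeval x (F j) = 0 ∧
      MvPolynomial.aeval y (F i) = 0 ∧ MvPolynomial.aeval y (F j) = 0)
    (hreg : (m = 0 ∧ n = 3) ∨ ∀ i j, i < j → ∀ (L : Type) [Field L] [Algebra K L]
      (y : Fin n → L), y ≠ 0 → On G y → MvPolynomial.aeval y (F i) = 0 →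
        MvPolynomial.aeval y (F j) = 0 →
        RegularAt (fun k => MvPolynomial.map (algebraMap K L) (G k))
          (MvPolynomial.map (algebraMap K L) (F i)) (MvPolynomial.map (algebraMap K L) (F j)) y) :
    ∃ η : ℝ, 0 < η ∧ ∀ S : Finset (Place K), S.card ≤ 2 → ∀ κ : ℝ,
      ∃ (t : ℕ) (Z : Finset (MvPolynomial (Fin n) K)),
        (∀ Φ ∈ Z, Φ.IsHomogeneous t ∧ Φ ∉ Ideal.span (Set.range G)) ∧
        {P : ℙ K (Fin n → K) | On G P.rep ∧ (∀ i, MvPolynomial.eval P.rep (F i) ≠ 0) ∧
          (∀ Φ ∈ Z, MvPolynomial.eval P.rep Φ ≠ 0) ∧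
          ∀ i, (d i - η) * height P.rep - κ ≤ ∑ v ∈ S, localHeight v (d i) (F i) P.rep}.Finite := by
  classical
  obtain ⟨c, hc, hI⟩ := Pool.Agent.R404.TC.final (r := 2) G g hG (by norm_num) (by omega) F d hd hF
    (by
      intro T hT L _ _ x hx1 hx2
      obtain ⟨i, j, l, hij, hil, hjl, rfl⟩ := Finset.card_eq_three.1 hT
      exact h3 i j l hij hil hjl L x hx1 (hx2 i (by simp)) (hx2 j (by simp)) (hx2 l (by simp)))
    (by
      intro σ hσ
      have h01 : σ 0 ≠ σ 1 := fun h => by
        have := hσ.injective h
        exact absurd this (by decide)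
      obtain ⟨x, y, hxy, hx, hy, hx1, hx2, hy1, hy2⟩ := h2 (σ 0) (σ 1) h01
      refine ⟨x, y, hxy, hx, hy, fun j => ?_, fun j => ?_⟩
      · fin_cases j
        · exact hx1
        · exact hx2
      · fin_cases j
        · exact hy1
        · exact hy2)
    (by
      rcases hreg with h | h
      · exact Or.inl h
      · refine Or.inr fun σ hσ L _ _ y hy hyG hyF j => ?_
        obtain ⟨hr1, hr2⟩ := h (σ 0) (σ 1) (hσ (by decide)) L y hy hyG (hyF 0) (hyF 1)
        fin_cases j
        · intro u hu
          have e1 : (fun i : Fin 2 => MvPolynomial.map (algebraMap K L) (F (σ i))) ''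
              Set.Iio (0 : Fin 2) = ∅ := by
            rw [Set.image_eq_empty]
            ext i
            simp
          have e2 : (Ideal.span (Set.range fun l => MvPolynomial.map (algebraMap K L) (G l)) ⊔
              Ideal.span ((fun i : Fin 2 => MvPolynomial.map (algebraMap K L) (F (σ i))) ''
              Set.Iio (0 : Fin 2))) =
              Ideal.span (Set.range fun l => MvPolynomial.map (algebraMap K L) (G l)) := by
            rw [e1, Ideal.span_empty, sup_bot_eq]
          have hu' := hu
          change _ ∈ (Ideal.span (Set.range fun l => MvPolynomial.map (algebraMap K L) (G l)) ⊔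
              Ideal.span ((fun i : Fin 2 => MvPolynomial.map (algebraMap K L) (F (σ i))) ''
              Set.Iio (0 : Fin 2))) at hu'
          rw [e2] at hu'
          obtain ⟨h, e, q1, q2, q3⟩ := hr1 u hu'
          refine ⟨h, e, q1, q2, ?_⟩
          change _ ∈ (Ideal.span (Set.range fun l => MvPolynomial.map (algebraMap K L) (G l)) ⊔
              Ideal.span ((fun i : Fin 2 => MvPolynomial.map (algebraMap K L) (F (σ i))) ''
              Set.Iio (0 : Fin 2)))
          rw [e2]
          exact q3
        · intro u hu
          have e1 : (fun i : Fin 2 => MvPolynomial.map (algebraMap K L) (F (σ i))) ''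
              Set.Iio (1 : Fin 2) = {MvPolynomial.map (algebraMap K L) (F (σ 0))} := by
            have e0 : Set.Iio (1 : Fin 2) = {0} := by
              ext i
              fin_cases i <;> simp
            rw [e0, Set.image_singleton]
          have e2 : (Ideal.span (Set.range fun l => MvPolynomial.map (algebraMap K L) (G l)) ⊔
              Ideal.span ((fun i : Fin 2 => MvPolynomial.map (algebraMap K L) (F (σ i))) ''
              Set.Iio (1 : Fin 2))) =
              Ideal.span ((Set.range fun l => MvPolynomial.map (algebraMap K L) (G l)) ∪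
                {MvPolynomial.map (algebraMap K L) (F (σ 0))}) := by
            rw [e1, Ideal.span_union]
          have hu' := hu
          change _ ∈ (Ideal.span (Set.range fun l => MvPolynomial.map (algebraMap K L) (G l)) ⊔
              Ideal.span ((fun i : Fin 2 => MvPolynomial.map (algebraMap K L) (F (σ i))) ''
              Set.Iio (1 : Fin 2))) at hu'
          rw [e2] at hu'
          obtain ⟨h, e, q1, q2, q3⟩ := hr2 u hu'
          refine ⟨h, e, q1, q2, ?_⟩
          change _ ∈ (Ideal.span (Set.range fun l => MvPolynomial.map (algebraMap K L) (G l)) ⊔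
              Ideal.span ((fun i : Fin 2 => MvPolynomial.map (algebraMap K L) (F (σ i))) ''
              Set.Iio (1 : Fin 2)))
          rw [e2]
          exact q3)
  have hq0 : (0 : ℝ) < q := by
    have : 0 < q := by omega
    exact_mod_cast this
  refine ⟨c / (4 * (c + q)), by positivity, fun S hS κ => ?_⟩
  have hN : (0 : ℝ) < Module.finrank ℚ K := by exact_mod_cast Module.finrank_pos
  obtain ⟨t, Z, B, hZ, hB⟩ := Pool.Agent.R404.TC.cons3 hq G F d hd hF c hc hI S hS
    (κ * Module.finrank ℚ K)
  refine ⟨t, Z, hZ, ?_⟩
  refine (Pool.Agent.W180.TP.northcott_pts K n (Module.finrank ℚ K) B).subset ?_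
  rintro P ⟨hP1, hP2, hP3, hP4⟩
  refine ⟨K, inferInstance, inferInstance, RingHom.id K, P.rep, 1, ?_, le_rfl, ?_⟩
  · rw [one_smul]
    rfl
  have hev : ∀ p : MvPolynomial (Fin n) K, MvPolynomial.aeval P.rep p =
      MvPolynomial.eval P.rep p := fun p =>
    DFunLike.congr_fun (MvPolynomial.coe_aeval_eq_eval P.rep) p
  refine hB P.rep P.rep_nonzero (fun j => by rw [← hev]; exact hP1 j) hP2 hP3 fun i => ?_
  have h4 := hP4 i
  have hl : ∀ v, localHeight v (d i) (F i) P.rep =
      Pool.Agent.W180.OP.wt v * Pool.Agent.W180.OP.lam (Pool.Agent.W180.OP.av v) (d i) (F i) P.rep /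
        Module.finrank ℚ K := by
    intro v
    rcases v with w | p
    · rfl
    · show Real.log _ / _ = 1 * _ / _
      rw [one_mul]
      rfl
  rw [Finset.sum_congr rfl fun v _ => hl v, ← Finset.sum_div, le_div_iff₀ hN, height] at h4
  have h6 : ((d i - c / (4 * (c + q))) * (Height.logHeight P.rep / Module.finrank ℚ K) - κ) *
      Module.finrank ℚ K = (d i - c / (4 * (c + q))) * Height.logHeight P.rep -
        κ * Module.finrank ℚ K := by
    field_simp
  rw [h6] at h4
  exact h4

end Pool.Agent.Results.MP_26d9ad_nt.ThreeComponents
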